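import Pool.Agent.V11216.FSens

namespace Pool.Agent.Results.MP_bfac72_an.MixingNotFilter

open Pool.Agent.V11216.FSens

/-- **Q2 (negative answer).** There is a compact metric space `X` with more than one point and a
continuous surjection `T : X → X` that is weakly mixing but not filter-sensitive. -/
theorem result : ∃ (X : Type) (_ : MetricSpace X) (_ : CompactSpace X) (_ : Nontrivial X)
    (T : X → X), Continuous T ∧ Function.Surjective T ∧ WeaklyMixing T ∧ ¬ FilterSensitive T :=
  ⟨X, inferInstance, inferInstance, inferInstance, T, continuous_T, surjective_T,
    weaklyMixing_T, not_filterSensitive_T⟩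

end Pool.Agent.Results.MP_bfac72_an.MixingNotFilter
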