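import Pool.Agent.V11216.FSens

namespace Pool.Agent.Results.MP_bfac72_an.ThickNotFilter

open Pool.Agent.V11216.FSens

/-- **Q1 (negative answer).** There is a compact metric space `X` with more than one point and a
continuous surjection `T : X → X` that is transitive and thickly sensitive but not
filter-sensitive. -/
theorem result : ∃ (X : Type) (_ : MetricSpace X) (_ : CompactSpace X) (_ : Nontrivial X)
    (T : X → X), Continuous T ∧ Function.Surjective T ∧ TopTransitive T ∧
      ThicklySensitive T ∧ ¬ FilterSensitive T :=
  ⟨X, inferInstance, inferInstance, inferInstance, T, continuous_T, surjective_T,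
    weaklyMixing_T.transitive, thicklySensitive_T, not_filterSensitive_T⟩

end Pool.Agent.Results.MP_bfac72_an.ThickNotFilter
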